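import Pool.Agent.Helper47.Ram.Strip2

set_option autoImplicit false

/-!
# The radial inequality in the strip (module S)
-/

namespace Pool.Agent.Helper47.Ram

open MeasureTheory Set Filter Topology Pool.Agent.Helper10.Ram

theorem isOpen_UH : IsOpen UH := isOpen_lt continuous_const continuous_snd

theorem tonelli3 {F : ℝ × ℝ × ℝ → ENNReal} (hF : Measurable F) (A I : Set ℝ) :
    ∫⁻ r in A, ∫⁻ s in I, ∫⁻ t in I, F (r, s, t) =
      ∫⁻ s in I, ∫⁻ t in I, ∫⁻ r in A, F (r, s, t) := by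
  rw [lintegral_lintegral_swap]
  · apply lintegral_congr
    intro s
    rw [lintegral_lintegral_swap]
    apply Measurable.aemeasurable
    exact hF.comp (by fun_prop)
  · apply Measurable.aemeasurable
    have h1 : Measurable (fun x : (ℝ × ℝ) × ℝ => F (x.1.1, x.1.2, x.2)) :=
      hF.comp (by fun_prop)
    exact h1.lintegral_prod_right'

section
variable {τ ν : ℂ} {u : Pt → ℂ}

/-- the point of the strip -/
noncomputable def ph (τ ν : ℂ) (x : ℝ × ℝ × ℝ) : Pt := (ν * (x.2.1 + x.2.2 * τ), x.1)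

theorem ph_cont (τ ν : ℂ) : Continuous (ph τ ν) := by
  unfold ph
  fun_prop

theorem meas_ext {f : Pt → ℝ} (hf : ContinuousOn f UH) :
    Measurable (({x : ℝ × ℝ × ℝ | 0 < x.1}).indicator (fun x => f (ph τ ν x))) := by
  classical
  have hS : IsOpen {x : ℝ × ℝ × ℝ | 0 < x.1} := isOpen_lt continuous_const continuous_fst
  have h1 : ContinuousOn (fun x => f (ph τ ν x)) {x : ℝ × ℝ × ℝ | 0 < x.1} :=
    hf.comp (ph_cont τ ν).continuousOn (fun x hx => hx)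
  have h2 := h1.measurable_piecewise (g := fun _ => (0:ℝ)) continuousOn_const hS.measurableSet
  convert h2 using 1
  ext x
  by_cases hx : x ∈ {x : ℝ × ℝ × ℝ | 0 < x.1}
  · rw [indicator_of_mem hx, piecewise_eq_of_mem _ _ _ hx]
  · rw [indicator_of_notMem hx, piecewise_eq_of_notMem _ _ _ hx]

theorem strip_ineq' (hu : ContDiffOn ℝ 1 u UH) {B : ℝ}
    (hB : ∀ p ∈ UH, ‖u p‖ ≤ B) {c m a b r2 b2 μ : ℝ} (hm : 0 < m) (hmc : m < c)
    (hr2 : 1 / (c - m) ≤ r2)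
    (hW : ∀ r : ℝ, 0 < r → ENNReal.ofReal μ * cellInt τ ν (fun p => ENNReal.ofReal (‖u p‖ ^ 2)) r
      ≤ cellInt τ ν (fun p => ENNReal.ofReal (‖pd e1 u p‖ ^ 2 + ‖pd e2 u p‖ ^ 2)) r)
    (hμ : 0 ≤ μ) {Q : ℝ → ℝ} (hQm : Measurable Q) (hQ0 : ∀ r : ℝ, 0 < r → 0 ≤ Q r)
    (hQ : ∀ r : ℝ, 0 < r → Q r ≤ qf c m a b r2 b2 μ r) :
    ∫⁻ r in Set.Ioi (0 : ℝ), ENNReal.ofReal (Q r) *
        cellInt τ ν (fun p => ENNReal.ofReal (‖u p‖ ^ 2)) r * ENNReal.ofReal ((r ^ 3)⁻¹)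
      ≤ ∫⁻ r in Set.Ioi (0 : ℝ), ENNReal.ofReal (psi c m r) *
        cellInt τ ν (fun p => ENNReal.ofReal (gsq u p)) r * ENNReal.ofReal ((r ^ 3)⁻¹) := by
  have hfd : ContinuousOn (fderiv ℝ u) UH := hu.continuousOn_fderiv_of_isOpen isOpen_UH le_rfl
  have hpd : ∀ e : Pt, ContinuousOn (pd e u) UH := fun e =>
    hfd.clm_apply continuousOn_const
  -- measurable extensions
  set S : Set (ℝ × ℝ × ℝ) := {x | 0 < x.1} with hS
  set A : ℝ × ℝ × ℝ → ℝ := S.indicator (fun x => ‖u (ph τ ν x)‖ ^ 2) with hA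
  set D : ℝ × ℝ × ℝ → ℝ := S.indicator (fun x => ‖pd e3 u (ph τ ν x)‖ ^ 2) with hD
  have hAm : Measurable A := meas_ext (f := fun p => ‖u p‖ ^ 2) (hu.continuousOn.norm.pow 2)
  have hDm : Measurable D := meas_ext (f := fun p => ‖pd e3 u p‖ ^ 2) ((hpd e3).norm.pow 2)
  have hψm : Measurable (psi c m) := by
    unfold psi
    fun_prop
  have hw : Measurable (fun r : ℝ => (r ^ 3)⁻¹) := by fun_prop
  set FL : ℝ × ℝ × ℝ → ENNReal := fun x => ENNReal.ofReal (Q x.1) *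
    ENNReal.ofReal ((x.1 ^ 3)⁻¹) * ENNReal.ofReal (A x) with hFL
  set FR : ℝ × ℝ × ℝ → ENNReal := fun x => ENNReal.ofReal (psi c m x.1) *
    ENNReal.ofReal ((x.1 ^ 3)⁻¹) * (ENNReal.ofReal (x.1 ^ 2) *
      (ENNReal.ofReal (D x) + ENNReal.ofReal μ * ENNReal.ofReal (A x))) with hFR
  have hFLm : Measurable FL :=
    ((ENNReal.measurable_ofReal.comp (hQm.comp measurable_fst)).mul
      (ENNReal.measurable_ofReal.comp (hw.comp measurable_fst))).mul
        (ENNReal.measurable_ofReal.comp hAm)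
  have hFRm : Measurable FR :=
    ((ENNReal.measurable_ofReal.comp (hψm.comp measurable_fst)).mul
      (ENNReal.measurable_ofReal.comp (hw.comp measurable_fst))).mul
        ((ENNReal.measurable_ofReal.comp ((measurable_fst.pow_const 2))).mul
          ((ENNReal.measurable_ofReal.comp hDm).add
            ((ENNReal.measurable_ofReal.comp hAm).const_mul _)))
  -- left side
  have hL : ∫⁻ r in Set.Ioi (0 : ℝ), ENNReal.ofReal (Q r) *
        cellInt τ ν (fun p => ENNReal.ofReal (‖u p‖ ^ 2)) r * ENNReal.ofReal ((r ^ 3)⁻¹) =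
      ∫⁻ r in Ioi (0:ℝ), ∫⁻ s in Icc (0:ℝ) 1, ∫⁻ t in Icc (0:ℝ) 1, FL (r, s, t) := by
    apply setLIntegral_congr_fun measurableSet_Ioi
    intro r hr
    have hr0 : 0 < r := hr
    have e1 : ∀ s t : ℝ, FL (r, s, t) = (ENNReal.ofReal (Q r) * ENNReal.ofReal ((r ^ 3)⁻¹)) *
        ENNReal.ofReal (‖u (ν * (s + t * τ), r)‖ ^ 2) := by
      intro s t
      have hmem : ((r, s, t) : ℝ × ℝ × ℝ) ∈ S := hr0
      simp only [hFL, hA, indicator_of_mem hmem, ph]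
    simp only [cellInt]
    simp_rw [e1]
    have hne : ENNReal.ofReal (Q r) * ENNReal.ofReal ((r ^ 3)⁻¹) ≠ ⊤ :=
      ENNReal.mul_ne_top ENNReal.ofReal_ne_top ENNReal.ofReal_ne_top
    simp_rw [lintegral_const_mul' _ _ hne]
    ring
  rw [hL, tonelli3 hFLm]
  -- the pointwise inequality
  have hpt : ∀ s t : ℝ, ∫⁻ r in Ioi (0:ℝ), FL (r, s, t) ≤ ∫⁻ r in Ioi (0:ℝ), FR (r, s, t) := by
    intro s t
    set z : ℂ := ν * (s + t * τ) with hz
    have hg : ∀ r, 0 < r → HasDerivAt (fun r => u (z, r)) (pd e3 u (z, r)) r := by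
      intro r hr
      have hd : DifferentiableAt ℝ u (z, r) :=
        (hu.contDiffAt (isOpen_UH.mem_nhds hr)).differentiableAt one_ne_zero
      have h1 : HasDerivAt (fun r : ℝ => ((z, r) : Pt)) ((0 : ℂ), (1 : ℝ)) r :=
        (hasDerivAt_const r z).prodMk (hasDerivAt_id r)
      exact hd.hasFDerivAt.comp_hasDerivAt r h1
    have hgc : ContinuousOn (fun r => pd e3 u (z, r)) (Ioi 0) :=
      (hpd e3).comp (by fun_prop) (fun r hr => hr)
    have hmain := oneD (g := fun r => u (z, r)) (g' := fun r => pd e3 u (z, r)) (B := B) hg hgc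
      (fun r hr => hB _ hr) hm hmc hr2 hμ hQ0 hQ
    have eL : ∫⁻ r in Ioi (0:ℝ), FL (r, s, t) =
        ∫⁻ r in Ioi (0:ℝ), ENNReal.ofReal (fL Q (fun r => u (z, r)) r) := by
      apply setLIntegral_congr_fun measurableSet_Ioi
      intro r hr
      have hr0 : 0 < r := hr
      have hmem : ((r, s, t) : ℝ × ℝ × ℝ) ∈ S := hr0
      have h1 := hQ0 r hr0
      simp only [hFL, hA, indicator_of_mem hmem, ph, fL]
      rw [ENNReal.ofReal_mul (by positivity), ENNReal.ofReal_mul h1]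
    have eR : ∫⁻ r in Ioi (0:ℝ), FR (r, s, t) =
        ∫⁻ r in Ioi (0:ℝ), ENNReal.ofReal (fR c m μ (fun r => u (z, r))
          (fun r => pd e3 u (z, r)) r) := by
      apply setLIntegral_congr_fun measurableSet_Ioi
      intro r hr
      have hr0 : 0 < r := hr
      have hmem : ((r, s, t) : ℝ × ℝ × ℝ) ∈ S := hr0
      have h1 := psi_nonneg c m r
      simp only [hFR, hA, hD, indicator_of_mem hmem, ph, fR]
      rw [ENNReal.ofReal_mul (by positivity), ENNReal.ofReal_mul h1,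
        ENNReal.ofReal_mul (by positivity), ENNReal.ofReal_add (by positivity) (by positivity),
        ENNReal.ofReal_mul hμ]
    rw [eL, eR]
    exact hmain
  have hmid : ∫⁻ s in Icc (0:ℝ) 1, ∫⁻ t in Icc (0:ℝ) 1, ∫⁻ r in Ioi (0:ℝ), FL (r, s, t) ≤
      ∫⁻ s in Icc (0:ℝ) 1, ∫⁻ t in Icc (0:ℝ) 1, ∫⁻ r in Ioi (0:ℝ), FR (r, s, t) :=
    lintegral_mono fun s => lintegral_mono fun t => hpt s t
  refine hmid.trans ?_
  rw [← tonelli3 hFRm]
  apply setLIntegral_mono' measurableSet_Ioi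
  intro r hr
  have hr0 : 0 < r := hr
  set α := ENNReal.ofReal (psi c m r) * ENNReal.ofReal ((r ^ 3)⁻¹) with hα
  have hαne : α ≠ ⊤ := ENNReal.mul_ne_top ENNReal.ofReal_ne_top ENNReal.ofReal_ne_top
  have hAr : ∀ s t : ℝ, A (r, s, t) = ‖u (ν * (s + t * τ), r)‖ ^ 2 := by
    intro s t
    have hmem : ((r, s, t) : ℝ × ℝ × ℝ) ∈ S := hr0
    simp only [hA, indicator_of_mem hmem, ph]
  have hDr : ∀ s t : ℝ, D (r, s, t) = ‖pd e3 u (ν * (s + t * τ), r)‖ ^ 2 := by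
    intro s t
    have hmem : ((r, s, t) : ℝ × ℝ × ℝ) ∈ S := hr0
    simp only [hD, indicator_of_mem hmem, ph]
  have hDm2 : Measurable (fun x : ℝ × ℝ => ENNReal.ofReal (D (r, x.1, x.2))) :=
    ENNReal.measurable_ofReal.comp (hDm.comp (by fun_prop))
  have hDm1 : ∀ s, Measurable (fun t : ℝ => ENNReal.ofReal (D (r, s, t))) := fun s =>
    ENNReal.measurable_ofReal.comp (hDm.comp (by fun_prop))
  have f1 : ∫⁻ s in Icc (0:ℝ) 1, ∫⁻ t in Icc (0:ℝ) 1, FR (r, s, t) =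
      α * (ENNReal.ofReal (r ^ 2) *
        (cellInt τ ν (fun p => ENNReal.ofReal (‖pd e3 u p‖ ^ 2)) r +
          ENNReal.ofReal μ * cellInt τ ν (fun p => ENNReal.ofReal (‖u p‖ ^ 2)) r)) := by
    have h1 : ∀ s, ∫⁻ t in Icc (0:ℝ) 1, FR (r, s, t) = α * (ENNReal.ofReal (r ^ 2) *
        ((∫⁻ t in Icc (0:ℝ) 1, ENNReal.ofReal (D (r, s, t))) +
          ENNReal.ofReal μ * ∫⁻ t in Icc (0:ℝ) 1, ENNReal.ofReal (A (r, s, t)))) := by
      intro s
      rw [← lintegral_const_mul' _ _ ENNReal.ofReal_ne_top, ← lintegral_add_left (hDm1 s),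
        ← lintegral_const_mul' _ _ ENNReal.ofReal_ne_top, ← lintegral_const_mul' _ _ hαne]
    simp_rw [h1]
    rw [lintegral_const_mul' _ _ hαne, lintegral_const_mul' _ _ ENNReal.ofReal_ne_top,
      lintegral_add_left hDm2.lintegral_prod_right', lintegral_const_mul' _ _
        ENNReal.ofReal_ne_top]
    simp_rw [hAr, hDr]
    rfl
  rw [f1]
  have f2 : ENNReal.ofReal (r ^ 2) *
        (cellInt τ ν (fun p => ENNReal.ofReal (‖pd e3 u p‖ ^ 2)) r +
          ENNReal.ofReal μ * cellInt τ ν (fun p => ENNReal.ofReal (‖u p‖ ^ 2)) r) ≤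
      cellInt τ ν (fun p => ENNReal.ofReal (gsq u p)) r := by
    have h1 : ENNReal.ofReal (r ^ 2) *
        (cellInt τ ν (fun p => ENNReal.ofReal (‖pd e3 u p‖ ^ 2)) r +
          ENNReal.ofReal μ * cellInt τ ν (fun p => ENNReal.ofReal (‖u p‖ ^ 2)) r) ≤
        ENNReal.ofReal (r ^ 2) *
        (cellInt τ ν (fun p => ENNReal.ofReal (‖pd e3 u p‖ ^ 2)) r +
          cellInt τ ν (fun p => ENNReal.ofReal (‖pd e1 u p‖ ^ 2 + ‖pd e2 u p‖ ^ 2)) r) := by
      gcongr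
      exact hW r hr0
    refine h1.trans ?_
    unfold cellInt
    refine (mul_le_mul_right (le_lintegral_add _ _) _).trans ?_
    rw [← lintegral_const_mul' _ _ ENNReal.ofReal_ne_top]
    apply lintegral_mono
    intro s
    refine (mul_le_mul_right (le_lintegral_add _ _) _).trans ?_
    rw [← lintegral_const_mul' _ _ ENNReal.ofReal_ne_top]
    apply lintegral_mono
    intro t
    simp only
    rw [← ENNReal.ofReal_add (by positivity) (by positivity), ← ENNReal.ofReal_mul (by positivity)]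
    apply ENNReal.ofReal_le_ofReal
    unfold gsq
    apply le_of_eq
    ring
  calc α * (ENNReal.ofReal (r ^ 2) *
        (cellInt τ ν (fun p => ENNReal.ofReal (‖pd e3 u p‖ ^ 2)) r +
          ENNReal.ofReal μ * cellInt τ ν (fun p => ENNReal.ofReal (‖u p‖ ^ 2)) r))
      ≤ α * cellInt τ ν (fun p => ENNReal.ofReal (gsq u p)) r := by gcongr
    _ = ENNReal.ofReal (psi c m r) * cellInt τ ν (fun p => ENNReal.ofReal (gsq u p)) r *
        ENNReal.ofReal ((r ^ 3)⁻¹) := by rw [hα]; ring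

end

/-- module S -/
theorem strip_ineq {τ ν : ℂ} {u : Pt → ℂ} (hu : ContDiffOn ℝ 1 u UH) {B : ℝ}
    (hB : ∀ p ∈ UH, ‖u p‖ ≤ B) {c m a b r2 b2 μ : ℝ} (hm : 0 < m) (hmc : m < c) (_hb : 0 ≤ b)
    (_ha : 0 ≤ a) (_hac : a * c ≤ 1) (hr2 : 1 / (c - m) ≤ r2)
    (hW : ∀ r : ℝ, 0 < r → ENNReal.ofReal μ * cellInt τ ν (fun p => ENNReal.ofReal (‖u p‖ ^ 2)) r
      ≤ cellInt τ ν (fun p => ENNReal.ofReal (‖pd e1 u p‖ ^ 2 + ‖pd e2 u p‖ ^ 2)) r)
    (hμ : 0 ≤ μ) {Q : ℝ → ℝ} (hQm : Measurable Q) (hQ0 : ∀ r : ℝ, 0 < r → 0 ≤ Q r)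
    (hQ : ∀ r : ℝ, 0 < r → Q r ≤ qf c m a b r2 b2 μ r) :
    ∫⁻ r in Set.Ioi (0 : ℝ), ENNReal.ofReal (Q r) *
        cellInt τ ν (fun p => ENNReal.ofReal (‖u p‖ ^ 2)) r * ENNReal.ofReal ((r ^ 3)⁻¹)
      ≤ ∫⁻ r in Set.Ioi (0 : ℝ), ENNReal.ofReal (psi c m r) *
        cellInt τ ν (fun p => ENNReal.ofReal (gsq u p)) r * ENNReal.ofReal ((r ^ 3)⁻¹) :=
  strip_ineq' hu hB hm hmc hr2 hW hμ hQm hQ0 hQ

end Pool.Agent.Helper47.Ram
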