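import Mathlib

set_option autoImplicit false

/-!
# One-dimensional inequality for the strip
-/

namespace Pool.Agent.Helper47.Ram

open MeasureTheory Set Filter Topology

section piece

variable {g g' : ℝ → ℂ}

/-- the smooth formula for the energy density -/
noncomputable def qq (p0 p1 t0 t1 μ r : ℝ) : ℝ :=
  (p0 - p1 / r) * (μ * r ^ 2 - (t0 + t1 * r) ^ 2 + 2 * (t0 + t1 * r) - r * t1)
    - p1 / r * (t0 + t1 * r)

/-- the boundary term -/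
noncomputable def bd (p0 p1 t0 t1 : ℝ) (g : ℝ → ℂ) (r : ℝ) : ℝ :=
  (p0 - p1 / r) * (t0 + t1 * r) / r ^ 2 * ‖g r‖ ^ 2

theorem hasDerivAt_normSq {r : ℝ} (hg : HasDerivAt g (g' r) r) :
    HasDerivAt (fun x => ‖g x‖ ^ 2) (2 * (inner ℝ (g r) (g' r) : ℝ)) r := by
  have := hg.norm_sq
  exact this

theorem hasDerivAt_bd (p0 p1 t0 t1 : ℝ) {r : ℝ} (hr : 0 < r) (hg : HasDerivAt g (g' r) r) :
    HasDerivAt (bd p0 p1 t0 t1 g)
      ((p1 / r ^ 2 * (t0 + t1 * r) / r ^ 2 + (p0 - p1 / r) * t1 / r ^ 2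
          - 2 * (p0 - p1 / r) * (t0 + t1 * r) / r ^ 3) * ‖g r‖ ^ 2
        + (p0 - p1 / r) * (t0 + t1 * r) / r ^ 2 * (2 * (inner ℝ (g r) (g' r) : ℝ))) r := by
  have hr' : r ≠ 0 := hr.ne'
  have h1 : HasDerivAt (fun x : ℝ => p0 - p1 / x) (p1 / r ^ 2) r := by
    have := ((hasDerivAt_const r p1).div (hasDerivAt_id r) hr').const_sub p0
    convert! this using 1
    simp only [id]
    ring
  have h2 : HasDerivAt (fun x : ℝ => t0 + t1 * x) t1 r := by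
    have := ((hasDerivAt_id r).const_mul t1).const_add t0
    simpa using this
  have h3 : HasDerivAt (fun x : ℝ => (p0 - p1 / x) * (t0 + t1 * x) / x ^ 2)
      (p1 / r ^ 2 * (t0 + t1 * r) / r ^ 2 + (p0 - p1 / r) * t1 / r ^ 2
          - 2 * (p0 - p1 / r) * (t0 + t1 * r) / r ^ 3) r := by
    have h5 : HasDerivAt (fun x : ℝ => (p0 - p1 / x) * (t0 + t1 * x))
        (p1 / r ^ 2 * (t0 + t1 * r) + (p0 - p1 / r) * t1) r := h1.mul h2
    have h6 : HasDerivAt (fun x : ℝ => x ^ 2) (2 * r) r := by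
      have := hasDerivAt_pow 2 r
      simpa using this
    have h4 : HasDerivAt (fun x : ℝ => (p0 - p1 / x) * (t0 + t1 * x) / x ^ 2)
      (((p1 / r ^ 2 * (t0 + t1 * r) + (p0 - p1 / r) * t1) * r ^ 2 -
        ((p0 - p1 / r) * (t0 + t1 * r)) * (2 * r)) / (r ^ 2) ^ 2) r :=
      h5.div h6 (by positivity)
    convert! h4 using 1
    field_simp
  exact h3.mul (hasDerivAt_normSq hg)

theorem pointwise (p0 p1 t0 t1 μ : ℝ) {r : ℝ} (hr : 0 < r) (hP : 0 ≤ p0 - p1 / r) :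
    qq p0 p1 t0 t1 μ r * (r ^ 3)⁻¹ * ‖g r‖ ^ 2 +
      ((p1 / r ^ 2 * (t0 + t1 * r) / r ^ 2 + (p0 - p1 / r) * t1 / r ^ 2
          - 2 * (p0 - p1 / r) * (t0 + t1 * r) / r ^ 3) * ‖g r‖ ^ 2
        + (p0 - p1 / r) * (t0 + t1 * r) / r ^ 2 * (2 * (inner ℝ (g r) (g' r) : ℝ)))
      ≤ (p0 - p1 / r) * (r ^ 3)⁻¹ * (r ^ 2 * (‖g' r‖ ^ 2 + μ * ‖g r‖ ^ 2)) := by
  have hr' : r ≠ 0 := hr.ne'
  set T := (t0 + t1 * r) / r with hT
  have h1 : 0 ≤ ‖g' r - T • g r‖ ^ 2 := by positivity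
  have h2 : ‖g' r - T • g r‖ ^ 2 = ‖g' r‖ ^ 2 - 2 * T * (inner ℝ (g r) (g' r) : ℝ) +
      T ^ 2 * ‖g r‖ ^ 2 := by
    rw [norm_sub_sq_real, real_inner_smul_right, norm_smul, mul_pow, Real.norm_eq_abs, sq_abs,
      real_inner_comm]
    ring
  have h3 : 0 ≤ (p0 - p1 / r) / r * (‖g' r‖ ^ 2 - 2 * T * (inner ℝ (g r) (g' r) : ℝ) +
      T ^ 2 * ‖g r‖ ^ 2) := by
    rw [← h2]; positivity
  have h4 : (p0 - p1 / r) * (r ^ 3)⁻¹ * (r ^ 2 * (‖g' r‖ ^ 2 + μ * ‖g r‖ ^ 2)) -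
      (qq p0 p1 t0 t1 μ r * (r ^ 3)⁻¹ * ‖g r‖ ^ 2 +
      ((p1 / r ^ 2 * (t0 + t1 * r) / r ^ 2 + (p0 - p1 / r) * t1 / r ^ 2
          - 2 * (p0 - p1 / r) * (t0 + t1 * r) / r ^ 3) * ‖g r‖ ^ 2
        + (p0 - p1 / r) * (t0 + t1 * r) / r ^ 2 * (2 * (inner ℝ (g r) (g' r) : ℝ)))) =
      (p0 - p1 / r) / r * (‖g' r‖ ^ 2 - 2 * T * (inner ℝ (g r) (g' r) : ℝ) +
      T ^ 2 * ‖g r‖ ^ 2) := by
    rw [hT]
    unfold qq
    field_simp
    ring
  linarith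

theorem piece (p0 p1 t0 t1 μ : ℝ) {x y : ℝ} (hx : 0 < x) (hxy : x ≤ y)
    (hg : ∀ r, 0 < r → HasDerivAt g (g' r) r) (hgc : ContinuousOn g' (Ioi 0))
    (hP : ∀ r ∈ Icc x y, 0 ≤ p0 - p1 / r) :
    (∫ r in x..y, qq p0 p1 t0 t1 μ r * (r ^ 3)⁻¹ * ‖g r‖ ^ 2) +
      (bd p0 p1 t0 t1 g y - bd p0 p1 t0 t1 g x)
      ≤ ∫ r in x..y, (p0 - p1 / r) * (r ^ 3)⁻¹ * (r ^ 2 * (‖g' r‖ ^ 2 + μ * ‖g r‖ ^ 2)) := by
  have hsub : Icc x y ⊆ Ioi 0 := fun r hr => lt_of_lt_of_le hx hr.1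
  have hgc0 : ContinuousOn g (Icc x y) := fun r hr =>
    (hg r (hsub hr)).continuousAt.continuousWithinAt
  have hgc1 : ContinuousOn g' (Icc x y) := hgc.mono hsub
  have hne : ∀ r ∈ Icc x y, r ≠ 0 := fun r hr => (hsub hr).ne'
  have hinv : ContinuousOn (fun r : ℝ => p1 / r) (Icc x y) :=
    continuousOn_const.div continuousOn_id hne
  have hinv3 : ContinuousOn (fun r : ℝ => (r ^ 3)⁻¹) (Icc x y) :=
    (continuousOn_id.pow 3).inv₀ fun r hr => pow_ne_zero _ (hne r hr)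
  have hd2 : ContinuousOn (fun r : ℝ => r ^ 2) (Icc x y) := continuousOn_id.pow 2
  have hlin : ContinuousOn (fun r : ℝ => t0 + t1 * r) (Icc x y) := by fun_prop
  have hPc : ContinuousOn (fun r : ℝ => p0 - p1 / r) (Icc x y) := continuousOn_const.sub hinv
  have hn : ContinuousOn (fun r => ‖g r‖ ^ 2) (Icc x y) := hgc0.norm.pow 2
  have hn' : ContinuousOn (fun r => ‖g' r‖ ^ 2) (Icc x y) := hgc1.norm.pow 2
  have hin : ContinuousOn (fun r => (inner ℝ (g r) (g' r) : ℝ)) (Icc x y) := hgc0.inner hgc1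
  have hqq : ContinuousOn (fun r => qq p0 p1 t0 t1 μ r * (r ^ 3)⁻¹ * ‖g r‖ ^ 2) (Icc x y) := by
    apply (ContinuousOn.mul _ hinv3).mul hn
    unfold qq
    apply (hPc.mul _).sub (hinv.mul hlin)
    fun_prop
  have hder : ContinuousOn (fun r => (p1 / r ^ 2 * (t0 + t1 * r) / r ^ 2
          + (p0 - p1 / r) * t1 / r ^ 2
          - 2 * (p0 - p1 / r) * (t0 + t1 * r) / r ^ 3) * ‖g r‖ ^ 2
        + (p0 - p1 / r) * (t0 + t1 * r) / r ^ 2 * (2 * (inner ℝ (g r) (g' r) : ℝ)))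
        (Icc x y) := by
    have e2 : ∀ r ∈ Icc x y, r ^ 2 ≠ 0 := fun r hr => pow_ne_zero _ (hne r hr)
    have e3 : ∀ r ∈ Icc x y, r ^ 3 ≠ 0 := fun r hr => pow_ne_zero _ (hne r hr)
    apply ContinuousOn.add
    · apply ContinuousOn.mul _ hn
      apply ContinuousOn.sub
      · apply ContinuousOn.add
        · exact (((continuousOn_const.div hd2 e2).mul hlin).div hd2 e2)
        · exact (hPc.mul continuousOn_const).div hd2 e2
      · exact ((continuousOn_const.mul hPc).mul hlin).div (continuousOn_id.pow 3) e3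
    · exact ((hPc.mul hlin).div hd2 e2).mul (continuousOn_const.mul hin)
  have hR : ContinuousOn (fun r => (p0 - p1 / r) * (r ^ 3)⁻¹ *
      (r ^ 2 * (‖g' r‖ ^ 2 + μ * ‖g r‖ ^ 2))) (Icc x y) :=
    (hPc.mul hinv3).mul (hd2.mul (hn'.add (continuousOn_const.mul hn)))
  have i1 := hqq.intervalIntegrable_of_Icc (μ := volume) hxy
  have i2 := hder.intervalIntegrable_of_Icc (μ := volume) hxy
  have i3 := hR.intervalIntegrable_of_Icc (μ := volume) hxy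
  have hftc := intervalIntegral.integral_eq_sub_of_hasDerivAt
    (f := bd p0 p1 t0 t1 g) (a := x) (b := y) (fun r hr => by
      rw [uIcc_of_le hxy] at hr
      exact hasDerivAt_bd (g' := g') p0 p1 t0 t1 (hsub hr) (hg r (hsub hr))) i2
  rw [← hftc, ← intervalIntegral.integral_add i1 i2]
  apply intervalIntegral.integral_mono_on hxy (i1.add i2) i3
  intro r hr
  exact pointwise p0 p1 t0 t1 μ (hsub hr) (hP r hr)

end piece

end Pool.Agent.Helper47.Ram
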