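import Pool.Agent.Helper47.Ram.Strip1
import Pool.Agent.Helper10.Ram.Lib

set_option autoImplicit false

/-!
# One-dimensional inequality for the strip, second part
-/

namespace Pool.Agent.Helper47.Ram

open MeasureTheory Set Filter Topology Pool.Agent.Helper10.Ram

variable {g g' : ℝ → ℂ}

/-- left integrand -/
noncomputable def fL (Q : ℝ → ℝ) (g : ℝ → ℂ) (r : ℝ) : ℝ := Q r * (r ^ 3)⁻¹ * ‖g r‖ ^ 2

/-- right integrand -/
noncomputable def fR (c m μ : ℝ) (g g' : ℝ → ℂ) (r : ℝ) : ℝ :=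
  psi c m r * (r ^ 3)⁻¹ * (r ^ 2 * (‖g' r‖ ^ 2 + μ * ‖g r‖ ^ 2))

theorem psi_nonneg (c m r : ℝ) : 0 ≤ psi c m r := le_max_left _ _

theorem fR_nonneg {c m μ : ℝ} (hμ : 0 ≤ μ) {r : ℝ} (hr : 0 < r) : 0 ≤ fR c m μ g g' r := by
  unfold fR
  have := psi_nonneg c m r
  positivity

theorem piece' {c m μ : ℝ} (hμ : 0 ≤ μ) (p0 p1 t0 t1 : ℝ) {x y : ℝ} (hx : 0 < x) (hxy : x ≤ y)
    (hg : ∀ r, 0 < r → HasDerivAt g (g' r) r) (hgc : ContinuousOn g' (Ioi 0))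
    (hP : ∀ r ∈ Icc x y, psi c m r = p0 - p1 / r) {Q : ℝ → ℝ} (hQ0 : ∀ r, 0 < r → 0 ≤ Q r)
    (hQ : ∀ r ∈ Ioo x y, Q r ≤ qq p0 p1 t0 t1 μ r) :
    ∃ I J : ℝ, ∫⁻ r in Ioc x y, ENNReal.ofReal (fL Q g r) ≤ ENNReal.ofReal I ∧ 0 ≤ I ∧ 0 ≤ J ∧
      ENNReal.ofReal J ≤ ∫⁻ r in Ioc x y, ENNReal.ofReal (fR c m μ g g' r) ∧
      I + (bd p0 p1 t0 t1 g y - bd p0 p1 t0 t1 g x) ≤ J := by
  have hsub : Icc x y ⊆ Ioi 0 := fun r hr => lt_of_lt_of_le hx hr.1
  have hP0 : ∀ r ∈ Icc x y, 0 ≤ p0 - p1 / r := fun r hr => by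
    rw [← hP r hr]; exact psi_nonneg c m r
  have hmain := piece p0 p1 t0 t1 μ hx hxy hg hgc hP0
  have hgc0 : ContinuousOn g (Icc x y) := fun r hr =>
    (hg r (hsub hr)).continuousAt.continuousWithinAt
  have hgc1 : ContinuousOn g' (Icc x y) := hgc.mono hsub
  have hne : ∀ r ∈ Icc x y, r ≠ 0 := fun r hr => (hsub hr).ne'
  have hinv : ContinuousOn (fun r : ℝ => p1 / r) (Icc x y) :=
    continuousOn_const.div continuousOn_id hne
  have hinv3 : ContinuousOn (fun r : ℝ => (r ^ 3)⁻¹) (Icc x y) :=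
    (continuousOn_id.pow 3).inv₀ fun r hr => pow_ne_zero _ (hne r hr)
  have hd2 : ContinuousOn (fun r : ℝ => r ^ 2) (Icc x y) := continuousOn_id.pow 2
  have hlin : ContinuousOn (fun r : ℝ => t0 + t1 * r) (Icc x y) := by fun_prop
  have hPc : ContinuousOn (fun r : ℝ => p0 - p1 / r) (Icc x y) := continuousOn_const.sub hinv
  have hn : ContinuousOn (fun r => ‖g r‖ ^ 2) (Icc x y) := hgc0.norm.pow 2
  have hn' : ContinuousOn (fun r => ‖g' r‖ ^ 2) (Icc x y) := hgc1.norm.pow 2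
  have hqq : ContinuousOn (fun r => qq p0 p1 t0 t1 μ r * (r ^ 3)⁻¹ * ‖g r‖ ^ 2) (Icc x y) := by
    apply (ContinuousOn.mul _ hinv3).mul hn
    unfold qq
    apply (hPc.mul _).sub (hinv.mul hlin)
    fun_prop
  have hR : ContinuousOn (fun r => (p0 - p1 / r) * (r ^ 3)⁻¹ *
      (r ^ 2 * (‖g' r‖ ^ 2 + μ * ‖g r‖ ^ 2))) (Icc x y) :=
    (hPc.mul hinv3).mul (hd2.mul (hn'.add (continuousOn_const.mul hn)))
  have i1 : IntegrableOn (fun r => qq p0 p1 t0 t1 μ r * (r ^ 3)⁻¹ * ‖g r‖ ^ 2) (Ioc x y) :=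
    (hqq.integrableOn_compact isCompact_Icc).mono_set Ioc_subset_Icc_self
  have i3 : IntegrableOn (fun r => (p0 - p1 / r) * (r ^ 3)⁻¹ *
      (r ^ 2 * (‖g' r‖ ^ 2 + μ * ‖g r‖ ^ 2))) (Ioc x y) :=
    (hR.integrableOn_compact isCompact_Icc).mono_set Ioc_subset_Icc_self
  have hae : ∀ᵐ r ∂(volume.restrict (Ioc x y)), r ∈ Ioo x y := by
    rw [← restrict_Ioo_eq_restrict_Ioc]
    exact ae_restrict_mem measurableSet_Ioo
  have hn0 : ∀ r ∈ Ioo x y, 0 ≤ qq p0 p1 t0 t1 μ r * (r ^ 3)⁻¹ * ‖g r‖ ^ 2 := by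
    intro r hr
    have hr0 : 0 < r := hx.trans hr.1
    have h1 := (hQ0 r hr0).trans (hQ r hr)
    positivity
  have hn1 : ∀ r ∈ Ioo x y, 0 ≤ (p0 - p1 / r) * (r ^ 3)⁻¹ *
      (r ^ 2 * (‖g' r‖ ^ 2 + μ * ‖g r‖ ^ 2)) := by
    intro r hr
    have hr0 : 0 < r := hx.trans hr.1
    have h1 := hP0 r (Ioo_subset_Icc_self hr)
    positivity
  refine ⟨_, _, ?_, ?_, ?_, ?_, hmain⟩
  · rw [intervalIntegral.integral_of_le hxy, ofReal_integral_eq_lintegral_ofReal i1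
      (by filter_upwards [hae] with r hr using hn0 r hr)]
    apply lintegral_mono_ae
    filter_upwards [hae] with r hr
    apply ENNReal.ofReal_le_ofReal
    unfold fL
    have hr0 : 0 < r := hx.trans hr.1
    have h2 := hQ r hr
    gcongr
  · rw [intervalIntegral.integral_of_le hxy]
    apply integral_nonneg_of_ae
    filter_upwards [hae] with r hr using hn0 r hr
  · rw [intervalIntegral.integral_of_le hxy]
    apply integral_nonneg_of_ae
    filter_upwards [hae] with r hr using hn1 r hr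
  · rw [intervalIntegral.integral_of_le hxy, ofReal_integral_eq_lintegral_ofReal i3
      (by filter_upwards [hae] with r hr using hn1 r hr)]
    apply lintegral_mono_ae
    filter_upwards [hae] with r hr
    apply ENNReal.ofReal_le_ofReal
    unfold fR
    rw [hP r (Ioo_subset_Icc_self hr)]

theorem bd_lower {m t0 t1 B R : ℝ} (hm : 0 ≤ m) (hR : 1 ≤ R) (hB : ‖g R‖ ≤ B) :
    -(m * (|t0| + |t1|) * B ^ 2 / R) ≤ bd m 0 t0 t1 g R := by
  have hR0 : 0 < R := by linarith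
  unfold bd
  rw [zero_div, sub_zero]
  have h1 : -((|t0| + |t1|) * R) ≤ t0 + t1 * R := by
    have a1 := neg_abs_le t0
    have a2 := neg_abs_le t1
    have a3 := abs_nonneg t0
    have a4 := abs_nonneg t1
    nlinarith
  have h2 : ‖g R‖ ^ 2 ≤ B ^ 2 := pow_le_pow_left₀ (norm_nonneg _) hB 2
  have h3 : 0 ≤ ‖g R‖ ^ 2 := by positivity
  have h4 : -(m * ((|t0| + |t1|) * R)) / R ^ 2 ≤ m * (t0 + t1 * R) / R ^ 2 := by
    apply div_le_div_of_nonneg_right _ (by positivity)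
    nlinarith
  have h5 : -(m * ((|t0| + |t1|) * R)) / R ^ 2 = -(m * (|t0| + |t1|) / R) := by
    field_simp
  rw [h5] at h4
  have h6 : -(m * (|t0| + |t1|) / R) * ‖g R‖ ^ 2 ≤ m * (t0 + t1 * R) / R ^ 2 * ‖g R‖ ^ 2 :=
    mul_le_mul_of_nonneg_right h4 h3
  refine le_trans ?_ h6
  have h7 : 0 ≤ m * (|t0| + |t1|) / R := by positivity
  have h8 : m * (|t0| + |t1|) * B ^ 2 / R = m * (|t0| + |t1|) / R * B ^ 2 := by ring
  rw [h8]
  nlinarith

/-- the inequality on a bounded interval -/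
theorem bounded_ineq {B : ℝ} (hg : ∀ r, 0 < r → HasDerivAt g (g' r) r)
    (hgc : ContinuousOn g' (Ioi 0)) (hB : ∀ r, 0 < r → ‖g r‖ ≤ B)
    {c m a b r2 b2 μ : ℝ} (hm : 0 < m) (hmc : m < c) (hr2 : 1 / (c - m) ≤ r2) (hμ : 0 ≤ μ)
    {Q : ℝ → ℝ} (hQ0 : ∀ r : ℝ, 0 < r → 0 ≤ Q r)
    (hQ : ∀ r : ℝ, 0 < r → Q r ≤ qf c m a b r2 b2 μ r) {R : ℝ} (hR1 : 1 ≤ R) (hR2 : r2 ≤ R) :
    ∫⁻ r in Ioc 0 R, ENNReal.ofReal (fL Q g r) ≤
      (∫⁻ r in Ioi (0:ℝ), ENNReal.ofReal (fR c m μ g g' r)) +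
        ENNReal.ofReal (m * (|-(b * (r2 - a) - b2 * r2)| + |-b2|) * B ^ 2 / R) := by
  have hc : 0 < c := hm.trans hmc
  have hcm : 0 < c - m := sub_pos.2 hmc
  have hx0 : 0 < 1 / c := by positivity
  have hx01 : 1 / c ≤ 1 / (c - m) := one_div_le_one_div_of_le hcm (by linarith)
  have hx1 : 0 < 1 / (c - m) := by positivity
  -- psi on the pieces
  have hpsi0 : ∀ r ∈ Icc (1 / c) (1 / (c - m)), psi c m r = c - 1 / r := by
    intro r hr
    have hr0 : 0 < r := lt_of_lt_of_le hx0 hr.1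
    have h1 : 1 / r ≤ c := by
      rw [div_le_iff₀ hr0]
      have := hr.1
      rw [div_le_iff₀ hc] at this
      linarith
    have h2 : c - m ≤ 1 / r := by
      rw [le_div_iff₀ hr0]
      have := hr.2
      rw [le_div_iff₀ hcm] at this
      linarith
    unfold psi
    rw [min_eq_left (by linarith), max_eq_right (by linarith)]
  have hpsi1 : ∀ r, 1 / (c - m) ≤ r → psi c m r = m - 0 / r := by
    intro r hr
    have hr0 : 0 < r := lt_of_lt_of_le hx1 hr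
    have h2 : 1 / r ≤ c - m := by
      rw [div_le_iff₀ hr0]
      rw [div_le_iff₀ hcm] at hr
      linarith
    unfold psi
    rw [min_eq_right (by linarith), max_eq_right hm.le]
    simp
  -- qf on the pieces
  have hq0 : ∀ r ∈ Ioo (1 / c) (1 / (c - m)), Q r ≤ qq c 1 (a * b) (-b) μ r := by
    intro r hr
    have hr0 : 0 < r := lt_trans hx0 hr.1
    refine (hQ r hr0).trans (le_of_eq ?_)
    unfold qf qq
    rw [if_neg (not_lt.2 hr.1.le), if_pos hr.2]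
    field_simp
    ring
  have hq1 : ∀ r ∈ Ioo (1 / (c - m)) r2, Q r ≤ qq m 0 (a * b) (-b) μ r := by
    intro r hr
    have hr0 : 0 < r := lt_trans hx1 hr.1
    refine (hQ r hr0).trans (le_of_eq ?_)
    unfold qf qq
    rw [if_neg (not_lt.2 (hx01.trans hr.1.le)), if_neg (not_lt.2 hr.1.le), if_pos hr.2]
    ring
  have hq2 : ∀ r ∈ Ioo r2 R, Q r ≤ qq m 0 (-(b * (r2 - a) - b2 * r2)) (-b2) μ r := by
    intro r hr
    have hr0 : 0 < r := lt_trans (lt_of_lt_of_le hx1 hr2) hr.1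
    refine (hQ r hr0).trans (le_of_eq ?_)
    unfold qf qq
    rw [if_neg (not_lt.2 ((hx01.trans hr2).trans hr.1.le)),
      if_neg (not_lt.2 (hr2.trans hr.1.le)), if_neg (not_lt.2 hr.1.le)]
    ring
  obtain ⟨I0, J0, a1, a2, a3, a4, a5⟩ := piece' (g := g) (g' := g') hμ c 1 (a * b) (-b) hx0 hx01
    hg hgc hpsi0 hQ0 hq0
  obtain ⟨I1, J1, b1, b2', b3, b4, b5⟩ := piece' (g := g) (g' := g') hμ m 0 (a * b) (-b) hx1 hr2
    hg hgc (fun r hr => hpsi1 r hr.1) hQ0 hq1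
  obtain ⟨I2, J2, c1, c2, c3, c4, c5⟩ := piece' (g := g) (g' := g') hμ m 0
    (-(b * (r2 - a) - b2 * r2)) (-b2) (lt_of_lt_of_le hx1 hr2) hR2
    hg hgc (fun r hr => hpsi1 r (hr2.trans hr.1)) hQ0 hq2
  -- boundary terms
  have e0 : bd c 1 (a * b) (-b) g (1 / c) = 0 := by
    unfold bd
    have : c - 1 / (1 / c) = 0 := by field_simp; ring
    rw [this]; simp
  have e1 : bd c 1 (a * b) (-b) g (1 / (c - m)) = bd m 0 (a * b) (-b) g (1 / (c - m)) := by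
    unfold bd
    have h1 : c - 1 / (1 / (c - m)) = m - 0 / (1 / (c - m)) := by
      rw [one_div_one_div]; simp
    rw [h1]
  have e2 : bd m 0 (a * b) (-b) g r2 = bd m 0 (-(b * (r2 - a) - b2 * r2)) (-b2) g r2 := by
    unfold bd
    have h1 : a * b + -b * r2 = -(b * (r2 - a) - b2 * r2) + -b2 * r2 := by ring
    rw [h1]
  have e3 := bd_lower (g := g) (m := m) (t0 := -(b * (r2 - a) - b2 * r2)) (t1 := -b2) (B := B)
    hm.le hR1 (hB R (by linarith))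
  set K := m * (|-(b * (r2 - a) - b2 * r2)| + |-b2|) * B ^ 2 / R with hK
  have hK0 : 0 ≤ K := by rw [hK]; positivity
  have hsum : I0 + I1 + I2 ≤ (J0 + J1 + J2) + K := by linarith
  -- left side
  have hz : ∫⁻ r in Ioc 0 (1 / c), ENNReal.ofReal (fL Q g r) = 0 := by
    rw [← restrict_Ioo_eq_restrict_Ioc]
    rw [setLIntegral_congr_fun (g := fun _ => 0) measurableSet_Ioo]
    · simp
    intro r hr
    have h1 := hQ r hr.1
    unfold qf at h1
    rw [if_pos hr.2] at h1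
    have h2 := hQ0 r hr.1
    have h3 : Q r = 0 := le_antisymm h1 h2
    simp only [fL, h3, zero_mul, ENNReal.ofReal_zero]
  have hu1 : Ioc 0 R = Ioc 0 (1 / c) ∪ (Ioc (1 / c) (1 / (c - m)) ∪
      (Ioc (1 / (c - m)) r2 ∪ Ioc r2 R)) := by
    rw [Ioc_union_Ioc_eq_Ioc hr2 hR2, Ioc_union_Ioc_eq_Ioc hx01 (hr2.trans hR2),
      Ioc_union_Ioc_eq_Ioc hx0.le ((hx01.trans hr2).trans hR2)]
  have hleft : ∫⁻ r in Ioc 0 R, ENNReal.ofReal (fL Q g r) ≤
      ENNReal.ofReal I0 + (ENNReal.ofReal I1 + ENNReal.ofReal I2) := by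
    rw [hu1]
    refine (lintegral_union_le _ _ _).trans ?_
    rw [hz, zero_add]
    refine (lintegral_union_le _ _ _).trans (add_le_add a1 ?_)
    exact (lintegral_union_le _ _ _).trans (add_le_add b1 c1)
  have hright : ENNReal.ofReal J0 + (ENNReal.ofReal J1 + ENNReal.ofReal J2) ≤
      ∫⁻ r in Ioi (0:ℝ), ENNReal.ofReal (fR c m μ g g' r) := by
    have h1 : Ioc (1 / c) (1 / (c - m)) ∪ (Ioc (1 / (c - m)) r2 ∪ Ioc r2 R) ⊆ Ioi (0:ℝ) := by
      rw [Ioc_union_Ioc_eq_Ioc hr2 hR2, Ioc_union_Ioc_eq_Ioc hx01 (hr2.trans hR2)]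
      intro r hr
      exact lt_trans hx0 hr.1
    refine le_trans ?_ (lintegral_mono_set h1)
    rw [lintegral_union (measurableSet_Ioc.union measurableSet_Ioc), lintegral_union
      measurableSet_Ioc]
    · exact add_le_add a4 (add_le_add b4 c4)
    · rw [Set.disjoint_left]
      intro r h1 h2
      exact absurd h2.1 (not_lt.2 h1.2)
    · rw [Ioc_union_Ioc_eq_Ioc hr2 hR2, Set.disjoint_left]
      intro r h1 h2
      exact absurd h2.1 (not_lt.2 h1.2)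
  refine hleft.trans ?_
  refine le_trans ?_ (add_le_add hright le_rfl)
  rw [← ENNReal.ofReal_add b2' c2, ← ENNReal.ofReal_add a2 (by positivity),
    ← ENNReal.ofReal_add b3 c3, ← ENNReal.ofReal_add a3 (by positivity),
    ← ENNReal.ofReal_add (by positivity) hK0]
  apply ENNReal.ofReal_le_ofReal
  linarith

/-- the one-dimensional inequality -/
theorem oneD {B : ℝ} (hg : ∀ r, 0 < r → HasDerivAt g (g' r) r)
    (hgc : ContinuousOn g' (Ioi 0)) (hB : ∀ r, 0 < r → ‖g r‖ ≤ B)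
    {c m a b r2 b2 μ : ℝ} (hm : 0 < m) (hmc : m < c) (hr2 : 1 / (c - m) ≤ r2) (hμ : 0 ≤ μ)
    {Q : ℝ → ℝ} (hQ0 : ∀ r : ℝ, 0 < r → 0 ≤ Q r)
    (hQ : ∀ r : ℝ, 0 < r → Q r ≤ qf c m a b r2 b2 μ r) :
    ∫⁻ r in Ioi (0:ℝ), ENNReal.ofReal (fL Q g r) ≤
      ∫⁻ r in Ioi (0:ℝ), ENNReal.ofReal (fR c m μ g g' r) := by
  set f : ℝ → ENNReal := fun r => ENNReal.ofReal (fL Q g r) with hf
  set ν := (volume : Measure ℝ).withDensity f with hν
  have hU : Ioi (0:ℝ) = ⋃ n : ℕ, Ioc (0:ℝ) n := by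
    ext r
    simp only [mem_Ioi, mem_iUnion, mem_Ioc]
    constructor
    · intro h
      obtain ⟨n, hn⟩ := exists_nat_ge r
      exact ⟨n, h, hn⟩
    · rintro ⟨n, h, _⟩
      exact h
  have hmono : Monotone (fun n : ℕ => Ioc (0:ℝ) n) := by
    intro n k hnk
    apply Ioc_subset_Ioc_right
    exact_mod_cast hnk
  have h1 : Tendsto (fun n : ℕ => ν (Ioc (0:ℝ) n)) atTop (𝓝 (ν (⋃ n : ℕ, Ioc (0:ℝ) n))) :=
    tendsto_measure_iUnion_atTop hmono
  rw [← hU, hν, withDensity_apply _ measurableSet_Ioi] at h1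
  set K := m * (|-(b * (r2 - a) - b2 * r2)| + |-b2|) * B ^ 2 with hK
  have h2 : Tendsto (fun n : ℕ => (∫⁻ r in Ioi (0:ℝ), ENNReal.ofReal (fR c m μ g g' r)) +
      ENNReal.ofReal (K / (n:ℝ))) atTop
      (𝓝 ((∫⁻ r in Ioi (0:ℝ), ENNReal.ofReal (fR c m μ g g' r)) + ENNReal.ofReal 0)) := by
    apply Tendsto.const_add
    apply ENNReal.tendsto_ofReal
    exact tendsto_const_div_atTop_nhds_zero_nat K
  rw [ENNReal.ofReal_zero, add_zero] at h2
  apply le_of_tendsto_of_tendsto h1 h2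
  obtain ⟨n0, hn0⟩ := exists_nat_ge (max 1 r2)
  filter_upwards [eventually_ge_atTop n0] with n hn
  have h3 : max 1 r2 ≤ (n:ℝ) := hn0.trans (by exact_mod_cast hn)
  rw [withDensity_apply _ measurableSet_Ioc]
  exact bounded_ineq hg hgc hB hm hmc hr2 hμ hQ0 hQ ((le_max_left _ _).trans h3)
    ((le_max_right _ _).trans h3)

end Pool.Agent.Helper47.Ram
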